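import Pool.Agent.R984.PH.Fin
import Pool.Agent.R984.PH.Geo1
import Pool.Agent.R984.PH.Geo2
import Pool.Agent.R984.PH.Bd
import Pool.Agent.R984.PH.Rig
import Pool.Agent.R984.PH.Net
import Pool.Agent.R984.PH.NB
import Pool.Agent.R984.PH.Sur

/-!
# MP_d67387_co: congruent polyhedra from perimeter-halving foldings

Each congruence class of convex polyhedra contains `Q_x` for only finitely many boundary
points `x` of a convex polygon; in particular there is no convex polygon with infinitely many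
different perimeter-halving gluings that fold to congruent polyhedra.
-/

namespace Pool.Agent.Results.MP_d67387_co.FinitelyManyFoldings

open Set R984.PH

theorem result :
    (∀ (P : Polygon) (Q : Set E3),
      {x : E2 | ∃ R : Set E3, Congruent Q R ∧ FoldsTo P x R}.Finite) ∧
    ¬ ∃ (P : Polygon) (X : Set E2) (Q : E2 → Set E3), X.Infinite ∧
      (∀ x ∈ X, ∃ s : ℝ, P.At x s) ∧
      (∀ x ∈ X, ∀ y ∈ X, x ≠ y → ¬ Antipodal P x y) ∧
      (∀ x ∈ X, IsPolyhedron (Q x) ∧ FoldsTo P x (Q x)) ∧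
      ∀ x ∈ X, ∀ y ∈ X, Congruent (Q x) (Q y) := by
  have g2 : ∀ P, Geo2 P := fun P => geo2 geo1 (bd geo1) P
  have mt : ∀ P s, Met P s := met geo1 g2
  have h1 : ∀ (P : Polygon) (Q : Set E3),
      {x : E2 | ∃ R : Set E3, Congruent Q R ∧ FoldsTo P x R}.Finite :=
    fin_main geo1 g2 (nb1 geo1 g2 mt (cal geo1 g2) (chord geo1 g2))
      (nb2 geo1 g2 mt (cal geo1 g2) (chord geo1 g2)) (rig geo1 g2 mt) (net g2 mt) (sur mt)
  refine ⟨h1, ?_⟩
  rintro ⟨P, X, Q, hX, -, -, hF, hC⟩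
  obtain ⟨x0, hx0⟩ := hX.nonempty
  exact hX ((h1 P (Q x0)).subset (fun x hx => ⟨Q x, hC x0 hx0 x hx, (hF x hx).2⟩))

end Pool.Agent.Results.MP_d67387_co.FinitelyManyFoldings
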